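import Pool.Agent.P.MP_5e02e7_ag.Main

namespace Pool.Agent.Results.MP_5e02e7_ag.Gap

open Pool.Agent.P.MP_5e02e7_ag

theorem result : ∃ T : (Fin 4 → Fin 3) → ℂ, hmSubrank T < borderSubrank T :=
  ⟨T0, main⟩

end Pool.Agent.Results.MP_5e02e7_ag.Gap
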