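import Pool.Agent.P.MP_5e02e7_ag.T3Main

namespace Pool.Agent.Results.MP_5e02e7_ag.GapOrderThree

open Pool.Agent.P.MP_5e02e7_ag

theorem result : ∃ T : (Fin 3 → Fin 5) → ℂ, hmSubrank T < borderSubrank T :=
  ⟨T3.T0, T3.main⟩

end Pool.Agent.Results.MP_5e02e7_ag.GapOrderThree
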